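import Mathlib

/-!
Autocorrelation of a finitely supported sequence and the general inequality for Sidon sets in an
interval which keeps the profile of the set at both ends.
-/

namespace Pool.Agent.H24.SidE

open Finset

/-- autocorrelation of the sequence `a` (supported on `range u`) -/
noncomputable def K (u : ℕ) (a : ℕ → ℝ) (d : ℕ) : ℝ := ∑ i ∈ range u, a i * a (i + d)

/-- translate of `a` -/
noncomputable def z (a : ℕ → ℝ) (x y : ℕ) : ℝ := if x ≤ y then a (y - x) else 0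

lemma K_nonneg {u : ℕ} {a : ℕ → ℝ} (ha : ∀ i, 0 ≤ a i) (d : ℕ) : 0 ≤ K u a d :=
  Finset.sum_nonneg fun i _ => mul_nonneg (ha i) (ha _)

lemma K_big {u : ℕ} {a : ℕ → ℝ} (h0 : ∀ i, u ≤ i → a i = 0) (d : ℕ) (hd : u ≤ d) : K u a d = 0 := by
  unfold K
  refine Finset.sum_eq_zero fun i _ => ?_
  rw [h0 (i + d) (by omega), mul_zero]

lemma corr_le {u : ℕ} {a : ℕ → ℝ} (h0 : ∀ i, u ≤ i → a i = 0) {x x' L : ℕ} (hx : x ≤ x')
    (hL : x' + u ≤ L) : ∑ y ∈ range L, z a x y * z a x' y = K u a (x' - x) := by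
  have h1 : ∑ y ∈ range L, z a x y * z a x' y = ∑ y ∈ Ico x' (x' + u), z a x y * z a x' y := by
    symm
    refine Finset.sum_subset (fun y hy => ?_) fun y hy1 hy => ?_
    · rw [Finset.mem_Ico] at hy
      rw [Finset.mem_range]; omega
    · rw [Finset.mem_Ico] at hy
      rcases lt_or_ge y x' with h | h
      · have : z a x' y = 0 := by unfold z; rw [if_neg (by omega)]
        rw [this, mul_zero]
      · have : z a x' y = 0 := by unfold z; rw [if_pos h]; exact h0 _ (by omega)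
        rw [this, mul_zero]
  rw [h1, Finset.sum_Ico_eq_sum_range]
  unfold K
  rw [Nat.add_sub_cancel_left]
  refine Finset.sum_congr rfl fun i _ => ?_
  unfold z
  rw [if_pos (by omega), if_pos (by omega), Nat.add_sub_cancel_left, mul_comm]
  congr 2
  omega

/-- distance -/
def ds (x x' : ℕ) : ℕ := (x - x') + (x' - x)

lemma ds_self (x : ℕ) : ds x x = 0 := by unfold ds; omega

lemma ds_comm (x y : ℕ) : ds x y = ds y x := by unfold ds; omega

lemma corr {u : ℕ} {a : ℕ → ℝ} (h0 : ∀ i, u ≤ i → a i = 0) {x x' L : ℕ}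
    (hL : x + u ≤ L) (hL' : x' + u ≤ L) : ∑ y ∈ range L, z a x y * z a x' y = K u a (ds x x') := by
  rcases le_total x x' with h | h
  · rw [corr_le h0 h hL']
    congr 1
    unfold ds; omega
  · have h1 : ∑ y ∈ range L, z a x y * z a x' y = ∑ y ∈ range L, z a x' y * z a x y :=
      Finset.sum_congr rfl fun y _ => mul_comm _ _
    rw [h1, corr_le h0 h hL]
    congr 1
    unfold ds; omega

lemma quad_nonneg {u : ℕ} {a : ℕ → ℝ} (h0 : ∀ i, u ≤ i → a i = 0) (n : ℕ) (f : ℕ → ℝ) :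
    0 ≤ ∑ x ∈ Icc 1 n, ∑ x' ∈ Icc 1 n, f x * f x' * K u a (ds x x') := by
  have h1 : ∑ x ∈ Icc 1 n, ∑ x' ∈ Icc 1 n, f x * f x' * K u a (ds x x')
      = ∑ y ∈ range (n + u), (∑ x ∈ Icc 1 n, f x * z a x y) ^ 2 := by
    have h2 : ∀ x ∈ Icc 1 n, ∀ x' ∈ Icc 1 n, f x * f x' * K u a (ds x x')
        = ∑ y ∈ range (n + u), (f x * z a x y) * (f x' * z a x' y) := by
      intro x hx x' hx'
      rw [Finset.mem_Icc] at hx hx'
      rw [← corr h0 (L := n + u) (by omega) (by omega), Finset.mul_sum]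
      refine Finset.sum_congr rfl fun y _ => ?_
      ring
    rw [Finset.sum_congr rfl fun x hx => Finset.sum_congr rfl fun x' hx' => h2 x hx x' hx']
    simp_rw [pow_two, Finset.sum_mul_sum]
    rw [Finset.sum_comm' (s := range (n + u)) (t := fun _ => Icc 1 n) (t' := Icc 1 n)
      (s' := fun _ => range (n + u)) (by intro x y; tauto)]
    refine Finset.sum_congr rfl fun x _ => ?_
    rw [Finset.sum_comm]
  rw [h1]
  exact Finset.sum_nonneg fun y _ => sq_nonneg _

/-! ### sums of the autocorrelation -/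

lemma sum_K_mul {u : ℕ} {a : ℕ → ℝ} (h0 : ∀ i, u ≤ i → a i = 0) (g : ℕ → ℝ) (N : ℕ) (hN : u ≤ N) :
    ∑ d ∈ range N, K u a d * g d = ∑ i ∈ range u, ∑ j ∈ Ico i u, a i * a j * g (j - i) := by
  unfold K
  simp_rw [Finset.sum_mul]
  rw [Finset.sum_comm]
  refine Finset.sum_congr rfl fun i hi => ?_
  rw [Finset.mem_range] at hi
  have h1 : ∑ j ∈ Ico i u, a i * a j * g (j - i) = ∑ j ∈ Ico i (i + N), a i * a j * g (j - i) := by
    refine Finset.sum_subset (fun j hj => ?_) fun j hj1 hj => ?_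
    · rw [Finset.mem_Ico] at hj ⊢; omega
    · rw [Finset.mem_Ico] at hj hj1
      rw [h0 j (by omega)]; ring
  rw [h1, Finset.sum_Ico_eq_sum_range, Nat.add_sub_cancel_left]
  refine Finset.sum_congr rfl fun d _ => ?_
  rw [Nat.add_sub_cancel_left]

lemma tri_sum (a : ℕ → ℝ) (m : ℕ) :
    ∑ i ∈ range m, ∑ j ∈ Ico i m, a i * a j
      = ((∑ i ∈ range m, a i) ^ 2 + ∑ i ∈ range m, a i ^ 2) / 2 := by
  induction m with
  | zero => simp
  | succ m ih =>
    have h1 : ∀ i ∈ range (m + 1), ∑ j ∈ Ico i (m + 1), a i * a j = ∑ j ∈ Ico i m, a i * a j + a i * a m := by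
      intro i hi
      rw [Finset.mem_range] at hi
      rw [Finset.sum_Ico_succ_top (by omega)]
    rw [Finset.sum_congr rfl h1, Finset.sum_add_distrib, Finset.sum_range_succ (f := fun i => ∑ j ∈ Ico i m, a i * a j),
      ih, ← Finset.sum_mul, Finset.sum_range_succ a, Finset.sum_range_succ (fun i => a i ^ 2)]
    simp
    ring

lemma sum_partial (a : ℕ → ℝ) (m : ℕ) :
    ∑ t ∈ range m, ∑ i ∈ range (t + 1), a i = ∑ i ∈ range m, a i * ((m : ℝ) - i) := by
  induction m with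
  | zero => simp
  | succ m ih =>
    rw [Finset.sum_range_succ, ih, Finset.sum_range_succ (fun i => a i * (((m + 1 : ℕ) : ℝ) - i)),
      Finset.sum_range_succ a]
    have h1 : ∑ i ∈ range m, a i * (((m + 1 : ℕ) : ℝ) - i) = ∑ i ∈ range m, a i * ((m : ℝ) - i) + ∑ i ∈ range m, a i := by
      rw [← Finset.sum_add_distrib]
      refine Finset.sum_congr rfl fun i _ => ?_
      push_cast; ring
    rw [h1]
    push_cast
    ring

lemma dist_sum (a : ℕ → ℝ) (m : ℕ) :
    ∑ i ∈ range m, ∑ j ∈ Ico i m, a i * a j * ((j - i : ℕ) : ℝ)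
      = ∑ t ∈ range m, (∑ i ∈ range (t + 1), a i) * (∑ i ∈ range m, a i - ∑ i ∈ range (t + 1), a i) := by
  induction m with
  | zero => simp
  | succ m ih =>
    have h1 : ∀ i ∈ range (m + 1), ∑ j ∈ Ico i (m + 1), a i * a j * ((j - i : ℕ) : ℝ)
        = ∑ j ∈ Ico i m, a i * a j * ((j - i : ℕ) : ℝ) + a m * (a i * ((m : ℝ) - i)) := by
      intro i hi
      rw [Finset.mem_range] at hi
      rw [Finset.sum_Ico_succ_top (by omega), Nat.cast_sub (by omega)]
      ring
    rw [Finset.sum_congr rfl h1, Finset.sum_add_distrib,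
      Finset.sum_range_succ (f := fun i => ∑ j ∈ Ico i m, a i * a j * ((j - i : ℕ) : ℝ)), ih, ← Finset.mul_sum,
      Finset.sum_range_succ (fun i => a i * ((m : ℝ) - i)), ← sum_partial,
      Finset.sum_range_succ (fun t => (∑ i ∈ range (t + 1), a i) * (∑ i ∈ range (m + 1), a i - ∑ i ∈ range (t + 1), a i))]
    have h2 : ∑ t ∈ range m, (∑ i ∈ range (t + 1), a i) * (∑ i ∈ range (m + 1), a i - ∑ i ∈ range (t + 1), a i)
        = ∑ t ∈ range m, (∑ i ∈ range (t + 1), a i) * (∑ i ∈ range m, a i - ∑ i ∈ range (t + 1), a i)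
          + a m * ∑ t ∈ range m, ∑ i ∈ range (t + 1), a i := by
      rw [Finset.mul_sum, ← Finset.sum_add_distrib]
      refine Finset.sum_congr rfl fun t _ => ?_
      rw [Finset.sum_range_succ a m]
      ring
    rw [h2]
    simp

/-- total weight -/
noncomputable def W (u : ℕ) (a : ℕ → ℝ) : ℝ := ∑ i ∈ range u, a i

/-- first moment of the autocorrelation -/
noncomputable def M (u : ℕ) (a : ℕ → ℝ) : ℝ :=
  ∑ t ∈ range u, (∑ i ∈ range (t + 1), a i) * (∑ i ∈ range u, a i - ∑ i ∈ range (t + 1), a i)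

lemma K_zero (u : ℕ) (a : ℕ → ℝ) : K u a 0 = ∑ i ∈ range u, a i ^ 2 := by
  unfold K
  refine Finset.sum_congr rfl fun i _ => ?_
  rw [add_zero, pow_two]

lemma sum_K {u : ℕ} {a : ℕ → ℝ} (h0 : ∀ i, u ≤ i → a i = 0) (N : ℕ) (hN : u ≤ N) :
    ∑ d ∈ range N, K u a d = (W u a ^ 2 + K u a 0) / 2 := by
  have h1 := sum_K_mul h0 (fun _ => 1) N hN
  simp only [mul_one] at h1
  rw [h1, tri_sum, K_zero]
  rfl

lemma sum_K_id {u : ℕ} {a : ℕ → ℝ} (h0 : ∀ i, u ≤ i → a i = 0) (N : ℕ) (hN : u ≤ N) :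
    ∑ d ∈ range N, K u a d * (d : ℝ) = M u a := by
  rw [sum_K_mul h0 (fun d => (d : ℝ)) N hN, dist_sum]
  rfl

lemma sum_K_Ico {u : ℕ} {a : ℕ → ℝ} (h0 : ∀ i, u ≤ i → a i = 0) (N : ℕ) (hN : u ≤ N) (h1 : 1 ≤ N) :
    ∑ d ∈ Ico 1 N, K u a d = (W u a ^ 2 - K u a 0) / 2 := by
  have h2 := sum_K h0 N hN
  rw [Finset.range_eq_Ico, Finset.sum_eq_sum_Ico_succ_bot (by omega)] at h2
  simp only [Nat.zero_add] at h2
  linarith

end Pool.Agent.H24.SidE
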