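import Pool.Agent.H24.SidE.Final

/-!
The bound for Sidon sets in `{1, …, n}` which are not too dense near the ends.
-/

namespace Pool.Agent.H24.SidE

open Finset Real

/-- the estimate of the loss factor -/
lemma eta_le {u : ℕ} {s r lam c1 : ℝ} (hr : 4 ≤ r) (hsr : s = r ^ 2) (hl1 : 13 / 10 ≤ lam)
    (hu2 : lam * r ^ 3 ≤ u) (hc : c1 = π ^ 2 / (16 * lam)) :
    s * u / (4 * W u (sw u) ^ 2) ≤ c1 / r * (1 + 1 / r ^ 4) := by
  have hr0 : 0 < r := by linarith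
  have hr3 : (64 : ℝ) ≤ r ^ 3 := by
    have := pow_le_pow_left₀ (by norm_num : (0 : ℝ) ≤ 4) hr 3
    norm_num at this; exact this
  have hu83 : (83 : ℝ) ≤ u := by nlinarith
  have hu : 2 ≤ u := by
    have : (2 : ℝ) ≤ u := by linarith
    exact_mod_cast this
  have hu0 : (0 : ℝ) < u := by linarith
  have h1 := W_sw_ge hu
  set w := W u (sw u) ^ 2 with hw
  set x := π / (2 * (u : ℝ)) with hx
  have hpi := Real.pi_pos
  have hpi2 : π < 3.15 := Real.pi_lt_d2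
  have hx0 : 0 < x := by positivity
  have hux : (u : ℝ) * x = π / 2 := by rw [hx]; field_simp
  have hxr : x * r ^ 3 ≤ 1.22 := by
    have h2 : x * (lam * r ^ 3) ≤ x * u := mul_le_mul_of_nonneg_left hu2 hx0.le
    have h3 : x * r ^ 3 * lam ≤ π / 2 := by nlinarith
    have h4 : x * r ^ 3 * (13 / 10) ≤ x * r ^ 3 * lam := mul_le_mul_of_nonneg_left hl1 (by positivity)
    nlinarith
  have hx2 : 2 * x ^ 2 ≤ 1 / r ^ 4 := by
    rw [le_div_iff₀ (by positivity)]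
    have h2 : (x * r ^ 3) ^ 2 ≤ 1.22 ^ 2 := pow_le_pow_left₀ (by positivity) hxr 2
    have h3 : 2 * x ^ 2 * r ^ 4 * r ^ 2 ≤ 3 := by nlinarith
    have h4 : (16 : ℝ) ≤ r ^ 2 := by nlinarith
    have h5 : 0 ≤ 2 * x ^ 2 * r ^ 4 := by positivity
    nlinarith
  have hr4 : (256 : ℝ) ≤ r ^ 4 := by
    have := pow_le_pow_left₀ (by norm_num : (0 : ℝ) ≤ 4) hr 4
    norm_num at this; exact this
  have hx1 : x ^ 2 ≤ 1 / 2 := by
    have : 1 / r ^ 4 ≤ 1 := by rw [div_le_one (by positivity)]; linarith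
    linarith
  have hw0 : 0 < w := by
    by_contra hc
    push Not at hc
    nlinarith [mul_nonneg (sq_nonneg x) (sq_nonneg (W u (sw u)))]
  have h2 : s * u / (4 * w) ≤ s * u * x ^ 2 / 4 * (1 + 2 * x ^ 2) := by
    rw [div_le_iff₀ (by positivity)]
    have h3 : 1 ≤ (1 + 2 * x ^ 2) * (x ^ 2 * w) := by
      have : 1 ≤ (1 + 2 * x ^ 2) * (1 - x ^ 2) := by nlinarith [sq_nonneg x]
      nlinarith [sq_nonneg x]
    have h4 : 0 ≤ s * u := by rw [hsr]; positivity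
    nlinarith
  have h3 : s * u * x ^ 2 / 4 ≤ c1 / r := by
    have h4 : s * u * x ^ 2 / 4 = s * (π ^ 2 / 16) / u := by
      rw [hx]; field_simp; ring
    rw [h4, hc, hsr]
    rw [div_le_div_iff₀ hu0 hr0]
    have h5 : π ^ 2 / (16 * lam) * u ≥ π ^ 2 / (16 * lam) * (lam * r ^ 3) :=
      mul_le_mul_of_nonneg_left hu2 (by positivity)
    have h6 : π ^ 2 / (16 * lam) * (lam * r ^ 3) = r ^ 2 * (π ^ 2 / 16) * r := by
      field_simp
    linarith
  have hc0 : 0 ≤ c1 / r := by rw [hc]; positivity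
  calc s * u / (4 * w) ≤ s * u * x ^ 2 / 4 * (1 + 2 * x ^ 2) := h2
    _ ≤ c1 / r * (1 + 1 / r ^ 4) := by
      apply mul_le_mul h3 (by linarith) (by positivity) hc0

theorem end_profile (n : ℕ) (A : Finset ℕ) (κ₁ κ₂ e₁ e₂ : ℝ) (hκ : 2 ≤ κ₁ + κ₂) (he₁ : 0 ≤ e₁) (he₂ : 0 ≤ e₂)
    (hA : A ⊆ Icc 1 n)
    (hS : ∀ a ∈ A, ∀ b ∈ A, ∀ c ∈ A, ∀ d ∈ A, a + b = c + d → (a = c ∧ b = d) ∨ (a = d ∧ b = c))
    (hL : ∀ y : ℕ, 1 ≤ y → (y : ℝ) ≤ 9 / 4 * (n : ℝ) ^ ((3 : ℝ) / 4) →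
      ((A.filter fun a => a ≤ y).card : ℝ) ≤ κ₁ * y / Real.sqrt n + e₁)
    (hR : ∀ y : ℕ, 1 ≤ y → (y : ℝ) ≤ 9 / 4 * (n : ℝ) ^ ((3 : ℝ) / 4) →
      ((A.filter fun a => n < a + y).card : ℝ) ≤ κ₂ * y / Real.sqrt n + e₂) :
    (A.card : ℝ) ≤ Real.sqrt n + π / (4 * Real.sqrt 2) * Real.sqrt (κ₁ + κ₂ - 1) * (n : ℝ) ^ ((1 : ℝ) / 4)
      + (e₁ + e₂) / 2 + 24 := by
  have hb := Pool.Agent.H93.SD.sidon_bound n A hA hS
  set r := (n : ℝ) ^ ((1 : ℝ) / 4) with hr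
  have hn0 : (0 : ℝ) ≤ n := Nat.cast_nonneg n
  have hr0 : 0 ≤ r := Real.rpow_nonneg hn0 _
  have hr4 : r ^ 4 = n := by
    rw [hr, ← Real.rpow_natCast, ← Real.rpow_mul hn0]; norm_num
  have hsq : Real.sqrt n = r ^ 2 := by
    rw [← hr4, show r ^ 4 = (r ^ 2) ^ 2 by ring, Real.sqrt_sq (by positivity)]
  have hr3 : (n : ℝ) ^ ((3 : ℝ) / 4) = r ^ 3 := by
    rw [hr, ← Real.rpow_natCast, ← Real.rpow_mul hn0]; norm_num
  have hs2 : 1.414 < Real.sqrt 2 := by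
    rw [Real.lt_sqrt (by norm_num)]; norm_num
  have hs2' : Real.sqrt 2 < 1.4143 := by
    rw [Real.sqrt_lt' (by norm_num)]; norm_num
  have hss : Real.sqrt 2 ^ 2 = 2 := Real.sq_sqrt (by norm_num)
  have hpi : 3.1415 < π := by linarith [Real.pi_gt_d4]
  have hpi' : π < 3.1416 := by linarith [Real.pi_lt_d4]
  set ρ := Real.sqrt (κ₁ + κ₂ - 1) with hρ
  have hρ2 : ρ ^ 2 = κ₁ + κ₂ - 1 := Real.sq_sqrt (by linarith)
  have hρ0 : 0 ≤ ρ := Real.sqrt_nonneg _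
  have hρ1 : 1 ≤ ρ := by nlinarith
  rw [hsq] at hb hL hR ⊢
  rw [hr3] at hL hR
  have h23 : 2 * Real.sqrt 2 / 3 < 0.943 := by linarith
  have hmain : 0 ≤ π / (4 * Real.sqrt 2) * ρ := by positivity
  rcases lt_or_ge r 4 with hr4' | hr4'
  · have : 2 * Real.sqrt 2 / 3 * r ≤ 4 := by nlinarith
    have h2 : 0 ≤ π / (4 * Real.sqrt 2) * ρ * r := by positivity
    linarith
  rcases lt_or_ge ρ 1.7 with hρ17 | hρ17
  swap
  · have h1 : 2 * Real.sqrt 2 / 3 ≤ π / (4 * Real.sqrt 2) * ρ := by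
      have h2 : π / (4 * Real.sqrt 2) * ρ = π * ρ / (4 * Real.sqrt 2) := by ring
      rw [h2, div_le_div_iff₀ (by norm_num) (by positivity)]
      nlinarith
    have h2 : 2 * Real.sqrt 2 / 3 * r ≤ π / (4 * Real.sqrt 2) * ρ * r := mul_le_mul_of_nonneg_right h1 hr0
    linarith
  -- the main case
  have hrp : 0 < r := by linarith
  have hρp : 0 < ρ := by linarith
  set lam := π / (Real.sqrt 2 * ρ) with hlam
  have hl1 : 13 / 10 ≤ lam := by
    rw [hlam, le_div_iff₀ (by positivity)]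
    nlinarith
  have hl2 : lam ≤ 9 / 4 := by
    rw [hlam, div_le_iff₀ (by positivity)]
    nlinarith
  have hr3' : (64 : ℝ) ≤ r ^ 3 := by
    have := pow_le_pow_left₀ (by norm_num : (0 : ℝ) ≤ 4) hr4' 3
    norm_num at this; exact this
  set u := ⌈lam * r ^ 3⌉₊ with hu
  have hu1 : lam * r ^ 3 ≤ u := Nat.le_ceil _
  have hu2 : (u : ℝ) < lam * r ^ 3 + 1 := Nat.ceil_lt_add_one (by positivity)
  have hu83 : (83 : ℝ) ≤ u := by nlinarith
  have hu2' : 2 ≤ u := by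
    have : (2 : ℝ) ≤ u := by linarith
    exact_mod_cast this
  have hun : u ≤ n := by
    have : (u : ℝ) ≤ n := by
      rw [← hr4]
      have h1 : lam * r ^ 3 ≤ 9 / 4 * r ^ 3 := mul_le_mul_of_nonneg_right hl2 (by positivity)
      have h2 : 4 * r ^ 3 ≤ r ^ 4 := by nlinarith [pow_pos hrp 3]
      linarith
    exact_mod_cast this
  have hylt : ∀ y : ℕ, y < u → (y : ℝ) ≤ 9 / 4 * r ^ 3 := by
    intro y hy
    have h1 : (y : ℝ) + 1 ≤ u := by exact_mod_cast hy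
    have h2 : lam * r ^ 3 ≤ 9 / 4 * r ^ 3 := mul_le_mul_of_nonneg_right hl2 (by positivity)
    linarith
  have hk := key hu2' hun hA hS κ₁ κ₂ e₁ e₂ (r ^ 2) (by positivity) (by rw [← hr4]; ring) hκ he₁ he₂
    (by
      intro y h1 h2
      have := hL y h1 (hylt y h2)
      unfold lc
      calc ((A.filter fun a => a ≤ y).card : ℝ) ≤ κ₁ * y / r ^ 2 + e₁ := this
        _ = κ₁ / r ^ 2 * y + e₁ := by ring)
    (by
      intro y h1 h2
      have := hR y h1 (hylt y h2)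
      have h3 : (A.filter fun a => n + 1 - a ≤ y) = (A.filter fun a => n < a + y) := by
        refine Finset.filter_congr fun a ha => ?_
        have := Finset.mem_Icc.mp (hA ha)
        omega
      unfold rc
      rw [h3]
      calc ((A.filter fun a => n < a + y).card : ℝ) ≤ κ₂ * y / r ^ 2 + e₂ := this
        _ = κ₂ / r ^ 2 * y + e₂ := by ring)
  set c1 := π ^ 2 / (16 * lam) with hc1
  have hη := eta_le (u := u) (s := r ^ 2) (r := r) (lam := lam) (c1 := c1) hr4' rfl hl1 hu1 hc1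
  set η := r ^ 2 * u / (4 * W u (sw u) ^ 2) with hηdef
  have hc1' : c1 = π * ρ / (8 * Real.sqrt 2) := by
    rw [hc1, hlam]
    field_simp
    nlinarith [hss]
  have hc1b : c1 ≤ 0.48 := by
    rw [hc1', div_le_iff₀ (by positivity)]
    nlinarith
  have hc10 : 0 < c1 := by rw [hc1']; positivity
  have hη0 : 0 ≤ η := by positivity
  have h1 : (A.card : ℝ) * η ≤ (r ^ 2 + r + 20) * (c1 / r * (1 + 1 / r ^ 4)) := by
    apply mul_le_mul _ hη hη0 (by positivity)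
    have : 2 * Real.sqrt 2 / 3 * r ≤ r := by nlinarith
    linarith
  have h2 : (r ^ 2 + r + 20) * (c1 / r * (1 + 1 / r ^ 4)) ≤ c1 * r + 3 := by
    have h3 : (r ^ 2 + r + 20) * (c1 / r * (1 + 1 / r ^ 4)) = c1 * (r + 1 + 20 / r) * (1 + 1 / r ^ 4) := by
      field_simp
    rw [h3]
    have h4 : 20 / r ≤ 5 := by rw [div_le_iff₀ hrp]; linarith
    have h5 : (r + 1 + 20 / r) * (1 + 1 / r ^ 4) ≤ r + 6 + 1 / 16 := by
      have h6 : (r + 1 + 20 / r) * (1 / r ^ 4) ≤ 1 / 16 := by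
        have h7 : (r + 1 + 20 / r) ≤ r ^ 4 / 16 := by
          have : 4 ^ 3 * r ≤ r ^ 3 * r := by nlinarith
          nlinarith
        calc (r + 1 + 20 / r) * (1 / r ^ 4) ≤ r ^ 4 / 16 * (1 / r ^ 4) :=
              mul_le_mul_of_nonneg_right h7 (by positivity)
          _ = 1 / 16 := by field_simp
      have h8 : (r + 1 + 20 / r) * (1 + 1 / r ^ 4) = (r + 1 + 20 / r) + (r + 1 + 20 / r) * (1 / r ^ 4) := by ring
      rw [h8]; linarith
    nlinarith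
  have h3 : (κ₁ + κ₂ - 1) * u / (8 * r ^ 2) ≤ c1 * r + 1 := by
    rw [← hρ2]
    have h4 : ρ ^ 2 * u / (8 * r ^ 2) ≤ ρ ^ 2 * (lam * r ^ 3 + 1) / (8 * r ^ 2) := by
      apply div_le_div_of_nonneg_right _ (by positivity)
      exact mul_le_mul_of_nonneg_left hu2.le (by positivity)
    have h5 : ρ ^ 2 * (lam * r ^ 3 + 1) / (8 * r ^ 2) = ρ ^ 2 * lam / 8 * r + ρ ^ 2 / (8 * r ^ 2) := by
      field_simp
    have h6 : ρ ^ 2 * lam / 8 = c1 := by
      rw [hc1', hlam]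
      field_simp
    have h7 : ρ ^ 2 / (8 * r ^ 2) ≤ 1 := by
      rw [div_le_one (by positivity)]
      nlinarith
    rw [h5, h6] at h4
    linarith
  have h4 : π / (4 * Real.sqrt 2) * ρ * r = 2 * c1 * r := by
    rw [hc1']; ring
  rw [h4]
  linarith

end Pool.Agent.H24.SidE
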