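import Pool.Agent.H24.SidE.Trig
import Pool.Agent.H93.SidD

/-!
Sidon sets in `{1, …, n}` and their profile at the two ends.
-/

namespace Pool.Agent.H24.SidE

open Finset Real

lemma Pr_le {u : ℕ} {a : ℕ → ℝ} (ha : ∀ i, 0 ≤ a i) (h0 : ∀ i, u ≤ i → a i = 0) {n : ℕ}
    {A : Finset ℕ} (b₁ b₂ e₁ e₂ : ℝ)
    (hL : ∀ y : ℕ, 1 ≤ y → y < u → (lc A y : ℝ) ≤ b₁ * y + e₁)
    (hR : ∀ y : ℕ, 1 ≤ y → y < u → (rc n A y : ℝ) ≤ b₂ * y + e₂) :
    Pr u a n A ≤ (b₁ + b₂) * M u a + (e₁ + e₂) * ((W u a ^ 2 - K u a 0) / 2) := by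
  have h1 : Pr u a n A ≤ ∑ d ∈ Ico 1 (n + u + 1), ((b₁ + b₂) * (K u a d * (d : ℝ)) + (e₁ + e₂) * K u a d) := by
    unfold Pr
    refine Finset.sum_le_sum fun d hd => ?_
    rw [Finset.mem_Ico] at hd
    rcases lt_or_ge d u with h | h
    · have h2 := hL d hd.1 h
      have h3 := hR d hd.1 h
      have h4 := K_nonneg (u := u) ha d
      nlinarith
    · rw [K_big h0 d h]; simp
  have h2 := sum_K_id h0 (n + u + 1) (by omega)
  rw [Finset.range_eq_Ico, Finset.sum_eq_sum_Ico_succ_bot (by omega)] at h2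
  simp only [Nat.cast_zero, mul_zero, zero_add] at h2
  have h3 := sum_K_Ico h0 (n + u + 1) (by omega) (by omega)
  rw [Finset.sum_add_distrib, ← Finset.mul_sum, ← Finset.mul_sum, h2, h3] at h1
  exact h1

lemma key {n u : ℕ} (hu : 2 ≤ u) (hun : u ≤ n) {A : Finset ℕ} (hA : A ⊆ Icc 1 n) (hS : Sidon A)
    (κ₁ κ₂ e₁ e₂ s : ℝ) (hs : 0 < s) (hsn : s ^ 2 = n) (hκ : 2 ≤ κ₁ + κ₂) (he₁ : 0 ≤ e₁) (he₂ : 0 ≤ e₂)
    (hL : ∀ y : ℕ, 1 ≤ y → y < u → (lc A y : ℝ) ≤ κ₁ / s * y + e₁)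
    (hR : ∀ y : ℕ, 1 ≤ y → y < u → (rc n A y : ℝ) ≤ κ₂ / s * y + e₂) :
    (A.card : ℝ) ≤ s + (κ₁ + κ₂ - 1) * u / (8 * s) + (e₁ + e₂) / 2
      + A.card * (s * u / (4 * W u (sw u) ^ 2)) := by
  have h1 := main_ineq (u := u) (a := sw u) (fun i => sw_nonneg i) (fun i => sw_big i) hun hA hS (1 / s)
  have h2 := Pr_le (u := u) (a := sw u) (fun i => sw_nonneg i) (fun i => sw_big i) (κ₁ / s) (κ₂ / s) e₁ e₂ hL hR
  have h3 := M_sw_le hu
  have hK := K_zero_sw hu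
  have hu0 : (0 : ℝ) < u := by exact_mod_cast (by omega : 0 < u)
  have hW0 : 0 < W u (sw u) ^ 2 := by
    have h5 := W_sw_ge hu
    have hx2 : (π / (2 * (u : ℝ))) ^ 2 < 1 := by
      have hu2 : (2 : ℝ) ≤ u := by exact_mod_cast hu
      have : π / (2 * (u : ℝ)) ≤ π / 4 := by
        apply div_le_div_of_nonneg_left Real.pi_pos.le (by norm_num) (by linarith)
      have h6 : 0 ≤ π / (2 * (u : ℝ)) := by have := Real.pi_pos; positivity
      have h7 : π / (2 * (u : ℝ)) < 1 := by linarith [Real.pi_lt_d2]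
      nlinarith
    by_contra hc
    push Not at hc
    nlinarith [sq_nonneg (π / (2 * (u : ℝ))), mul_nonneg (sq_nonneg (π / (2 * (u : ℝ)))) (sq_nonneg (W u (sw u)))]
  set w := W u (sw u) ^ 2 with hw
  set m := (A.card : ℝ) with hm
  rw [hK] at h1 h2
  have hn1 : (1 / s) ^ 2 * (n : ℝ) = 1 := by rw [← hsn]; field_simp
  rw [hn1] at h1
  have h4 : m * (2 * (1 / s) * w - u / 2) ≤ 2 * w - 2 * (1 / s) ^ 2 * M u (sw u)
      + 2 * (1 / s) * ((κ₁ / s + κ₂ / s) * M u (sw u) + (e₁ + e₂) * ((w - u / 2) / 2)) := by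
    have := mul_le_mul_of_nonneg_left h2 (show 0 ≤ 2 * (1 / s) by positivity)
    linarith
  have h5 : m * (2 * (1 / s) * w - u / 2) ≤ 2 * w + (2 * (κ₁ + κ₂) - 2) / s ^ 2 * (u / 8 * w) + (e₁ + e₂) * w / s := by
    have h6 : 2 * w - 2 * (1 / s) ^ 2 * M u (sw u)
      + 2 * (1 / s) * ((κ₁ / s + κ₂ / s) * M u (sw u) + (e₁ + e₂) * ((w - u / 2) / 2))
      = 2 * w + (2 * (κ₁ + κ₂) - 2) / s ^ 2 * M u (sw u) + (e₁ + e₂) * (w - u / 2) / s := by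
      field_simp
      ring
    have h7 : (2 * (κ₁ + κ₂) - 2) / s ^ 2 * M u (sw u) ≤ (2 * (κ₁ + κ₂) - 2) / s ^ 2 * (u / 8 * w) := by
      apply mul_le_mul_of_nonneg_left h3
      apply div_nonneg (by linarith) (by positivity)
    have h8 : (e₁ + e₂) * (w - u / 2) / s ≤ (e₁ + e₂) * w / s := by
      apply div_le_div_of_nonneg_right _ hs.le
      apply mul_le_mul_of_nonneg_left _ (by linarith)
      linarith
    linarith
  have h6 : m * (2 * (1 / s) * w - u / 2) * (s / (2 * w)) ≤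
      (2 * w + (2 * (κ₁ + κ₂) - 2) / s ^ 2 * (u / 8 * w) + (e₁ + e₂) * w / s) * (s / (2 * w)) :=
    mul_le_mul_of_nonneg_right h5 (by positivity)
  have h7 : m * (2 * (1 / s) * w - u / 2) * (s / (2 * w)) = m - m * (s * u / (4 * w)) := by
    field_simp
    ring
  have h8 : (2 * w + (2 * (κ₁ + κ₂) - 2) / s ^ 2 * (u / 8 * w) + (e₁ + e₂) * w / s) * (s / (2 * w))
      = s + (κ₁ + κ₂ - 1) * u / (8 * s) + (e₁ + e₂) / 2 := by
    field_simp
  rw [h7, h8] at h6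
  linarith

end Pool.Agent.H24.SidE
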