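import Pool.Agent.H24.SidE.Basic

/-!
The inequality for Sidon sets in `{1, …, n}` with the profiles at the two ends.
-/

namespace Pool.Agent.H24.SidE

open Finset

lemma tail_sum (k : ℕ → ℝ) (N : ℕ) (A : Finset ℕ) (φ : ℕ → ℕ) (h1 : ∀ a ∈ A, 1 ≤ φ a) :
    ∑ a ∈ A, ∑ d ∈ Ico (φ a) N, k d = ∑ d ∈ Ico 1 N, k d * ((A.filter fun a => φ a ≤ d).card : ℝ) := by
  have h2 : ∀ a ∈ A, ∑ d ∈ Ico (φ a) N, k d = ∑ d ∈ Ico 1 N, if φ a ≤ d then k d else 0 := by
    intro a ha
    rw [← Finset.sum_filter]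
    refine Finset.sum_congr ?_ fun _ _ => rfl
    ext d
    have := h1 a ha
    simp only [Finset.mem_Ico, Finset.mem_filter]
    omega
  rw [Finset.sum_congr rfl h2, Finset.sum_comm]
  refine Finset.sum_congr rfl fun d _ => ?_
  rw [← Finset.sum_filter, Finset.sum_const, nsmul_eq_mul, mul_comm]

lemma row_sum (k : ℕ → ℝ) {n x : ℕ} (hx : x ∈ Icc 1 n) :
    ∑ x' ∈ Icc 1 n, k (ds x x') = k 0 + ∑ d ∈ Ico 1 x, k d + ∑ d ∈ Ico 1 (n + 1 - x), k d := by
  rw [Finset.mem_Icc] at hx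
  have h1 : Icc 1 n = Ico 1 (n + 1) := by ext; simp only [Finset.mem_Icc, Finset.mem_Ico]; omega
  rw [h1, ← Finset.sum_Ico_consecutive _ (m := 1) (n := x) (k := n + 1) (by omega) (by omega),
    Finset.sum_eq_sum_Ico_succ_bot (a := x) (b := n + 1) (by omega)]
  have h2 : ∑ x' ∈ Ico 1 x, k (ds x x') = ∑ d ∈ Ico 1 x, k d := by
    refine Finset.sum_nbij' (fun y => x - y) (fun y => x - y) ?_ ?_ ?_ ?_ ?_
    · intro y hy; simp only [Finset.mem_Ico] at hy ⊢; omega
    · intro y hy; simp only [Finset.mem_Ico] at hy ⊢; omega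
    · intro y hy; simp only [Finset.mem_Ico] at hy ⊢; omega
    · intro y hy; simp only [Finset.mem_Ico] at hy ⊢; omega
    · intro y hy; simp only [Finset.mem_Ico] at hy
      congr 1; unfold ds; omega
  have h3 : ∑ x' ∈ Ico (x + 1) (n + 1), k (ds x x') = ∑ d ∈ Ico 1 (n + 1 - x), k d := by
    refine Finset.sum_nbij' (fun y => y - x) (fun y => y + x) ?_ ?_ ?_ ?_ ?_
    · intro y hy; simp only [Finset.mem_Ico] at hy ⊢; omega
    · intro y hy; simp only [Finset.mem_Ico] at hy ⊢; omega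
    · intro y hy; simp only [Finset.mem_Ico] at hy ⊢; omega
    · intro y hy; simp only [Finset.mem_Ico] at hy ⊢; omega
    · intro y hy; simp only [Finset.mem_Ico] at hy
      congr 1; unfold ds; omega
  rw [h2, h3, ds_self]
  ring

lemma row_sum' {u : ℕ} {a : ℕ → ℝ} (h0 : ∀ i, u ≤ i → a i = 0) {n x : ℕ} (hx : x ∈ Icc 1 n) :
    ∑ x' ∈ Icc 1 n, K u a (ds x x')
      = W u a ^ 2 - ∑ d ∈ Ico x (n + u + 1), K u a d - ∑ d ∈ Ico (n + 1 - x) (n + u + 1), K u a d := by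
  rw [row_sum _ hx]
  rw [Finset.mem_Icc] at hx
  have h1 := Finset.sum_Ico_consecutive (K u a) (m := 1) (n := x) (k := n + u + 1) (by omega) (by omega)
  have h2 := Finset.sum_Ico_consecutive (K u a) (m := 1) (n := n + 1 - x) (k := n + u + 1) (by omega) (by omega)
  have h3 := sum_K_Ico h0 (n + u + 1) (by omega) (by omega)
  linarith

/-- number of elements at distance at most `d` from the left end -/
def lc (A : Finset ℕ) (d : ℕ) : ℕ := (A.filter fun a => a ≤ d).card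

/-- number of elements at distance at most `d` from the right end -/
def rc (n : ℕ) (A : Finset ℕ) (d : ℕ) : ℕ := (A.filter fun a => n + 1 - a ≤ d).card

/-- the sum of the end profiles against the kernel -/
noncomputable def Pr (u : ℕ) (a : ℕ → ℝ) (n : ℕ) (A : Finset ℕ) : ℝ :=
  ∑ d ∈ Ico 1 (n + u + 1), K u a d * ((lc A d : ℝ) + rc n A d)

lemma sum_rows {u : ℕ} {a : ℕ → ℝ} (h0 : ∀ i, u ≤ i → a i = 0) {n : ℕ} {A : Finset ℕ} (hA : A ⊆ Icc 1 n) :
    ∑ x ∈ A, ∑ x' ∈ Icc 1 n, K u a (ds x x') = A.card * W u a ^ 2 - Pr u a n A := by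
  rw [Finset.sum_congr rfl fun x hx => row_sum' h0 (hA hx)]
  rw [Finset.sum_sub_distrib, Finset.sum_sub_distrib, Finset.sum_const, nsmul_eq_mul]
  have h1 := tail_sum (K u a) (n + u + 1) A (fun x => x)
    (fun x hx => by have := Finset.mem_Icc.mp (hA hx); omega)
  have h2 := tail_sum (K u a) (n + u + 1) A (fun x => n + 1 - x)
    (fun x hx => by have := Finset.mem_Icc.mp (hA hx); omega)
  rw [h1, h2]
  unfold Pr lc rc
  simp_rw [mul_add]
  rw [Finset.sum_add_distrib]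
  ring

lemma Pr_full {u : ℕ} {a : ℕ → ℝ} (h0 : ∀ i, u ≤ i → a i = 0) {n : ℕ} (hun : u ≤ n) :
    Pr u a n (Icc 1 n) = 2 * M u a := by
  have h1 : ∀ d ∈ Ico 1 (n + u + 1), K u a d * ((lc (Icc 1 n) d : ℝ) + rc n (Icc 1 n) d) = 2 * (K u a d * (d : ℝ)) := by
    intro d hd
    rw [Finset.mem_Ico] at hd
    rcases lt_or_ge d u with h | h
    · have h2 : lc (Icc 1 n) d = d := by
        unfold lc
        have : (Icc 1 n).filter (fun a => a ≤ d) = Icc 1 d := by
          ext y; simp only [Finset.mem_filter, Finset.mem_Icc]; omega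
        rw [this, Nat.card_Icc]; omega
      have h3 : rc n (Icc 1 n) d = d := by
        unfold rc
        have : (Icc 1 n).filter (fun a => n + 1 - a ≤ d) = Icc (n + 1 - d) n := by
          ext y; simp only [Finset.mem_filter, Finset.mem_Icc]; omega
        rw [this, Nat.card_Icc]; omega
      rw [h2, h3]; ring
    · rw [K_big h0 d h]; ring
  unfold Pr
  rw [Finset.sum_congr rfl h1, ← Finset.mul_sum]
  have h2 := sum_K_id h0 (n + u + 1) (by omega)
  rw [Finset.range_eq_Ico, Finset.sum_eq_sum_Ico_succ_bot (by omega)] at h2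
  simp only [Nat.cast_zero, mul_zero, zero_add] at h2
  rw [h2]

/-- Sidon condition -/
def Sidon (A : Finset ℕ) : Prop := ∀ a ∈ A, ∀ b ∈ A, ∀ c ∈ A, ∀ d ∈ A,
  a + b = c + d → (a = c ∧ b = d) ∨ (a = d ∧ b = c)

lemma pair_sum {u : ℕ} {a : ℕ → ℝ} (ha : ∀ i, 0 ≤ a i) (h0 : ∀ i, u ≤ i → a i = 0) {n : ℕ} {A : Finset ℕ}
    (hA : A ⊆ Icc 1 n) (hS : Sidon A) :
    ∑ x ∈ A, ∑ x' ∈ A, K u a (ds x x') ≤ A.card * K u a 0 + (W u a ^ 2 - K u a 0) := by
  have h1 : ∑ x ∈ A, ∑ x' ∈ A, K u a (ds x x')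
      = ∑ p ∈ A ×ˢ A, K u a (ds p.1 p.2) := by rw [Finset.sum_product]
  have h2 : ∑ p ∈ A ×ˢ A, K u a (ds p.1 p.2)
      = ∑ p ∈ (A ×ˢ A).filter (fun p => p.1 = p.2), K u a (ds p.1 p.2)
        + (∑ p ∈ (A ×ˢ A).filter (fun p => p.1 < p.2), K u a (ds p.1 p.2)
          + ∑ p ∈ (A ×ˢ A).filter (fun p => p.2 < p.1), K u a (ds p.1 p.2)) := by
    rw [← Finset.sum_union, ← Finset.sum_union]
    · refine Finset.sum_congr ?_ fun _ _ => rfl
      ext p
      simp only [Finset.mem_union, Finset.mem_filter]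
      constructor
      · intro h
        rcases lt_trichotomy p.1 p.2 with h' | h' | h'
        · right; left; exact ⟨h, h'⟩
        · left; exact ⟨h, h'⟩
        · right; right; exact ⟨h, h'⟩
      · tauto
    · rw [Finset.disjoint_left]
      intro p hp hp'
      simp only [Finset.mem_union, Finset.mem_filter] at hp hp'
      omega
    · rw [Finset.disjoint_left]
      intro p hp hp'
      simp only [Finset.mem_filter] at hp hp'
      omega
  have h3 : ∑ p ∈ (A ×ˢ A).filter (fun p => p.1 = p.2), K u a (ds p.1 p.2) = A.card * K u a 0 := by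
    have : ∀ p ∈ (A ×ˢ A).filter (fun p => p.1 = p.2), K u a (ds p.1 p.2) = K u a 0 := by
      intro p hp
      rw [Finset.mem_filter] at hp
      rw [hp.2, ds_self]
    rw [Finset.sum_congr rfl this, Finset.sum_const, nsmul_eq_mul]
    congr 2
    have : (A ×ˢ A).filter (fun p => p.1 = p.2) = A.diag := by
      ext p
      simp only [Finset.mem_filter, Finset.mem_product, Finset.mem_diag]
      constructor
      · rintro ⟨⟨h, _⟩, h'⟩; exact ⟨h, h'⟩
      · rintro ⟨h, h'⟩; exact ⟨⟨h, h' ▸ h⟩, h'⟩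
    rw [this, Finset.diag_card]
  have h4 : ∑ p ∈ (A ×ˢ A).filter (fun p => p.1 < p.2), K u a (ds p.1 p.2)
      ≤ (W u a ^ 2 - K u a 0) / 2 := by
    rw [← sum_K_Ico h0 (n + u + 1) (by omega) (by omega)]
    have hinj : Set.InjOn (fun p : ℕ × ℕ => p.2 - p.1) ((A ×ˢ A).filter (fun p => p.1 < p.2) : Finset (ℕ × ℕ)) := by
      rintro ⟨a1, b1⟩ h1 ⟨a2, b2⟩ h2 h
      simp only [Finset.coe_filter, Finset.mem_product, Set.mem_ofPred_eq] at h1 h2 h
      have := hS b1 h1.1.2 a2 h2.1.1 b2 h2.1.2 a1 h1.1.1 (by omega)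
      rcases this with ⟨e1, e2⟩ | ⟨e1, e2⟩
      · simp only [Prod.mk.injEq]; omega
      · simp only [Prod.mk.injEq]; omega
    have h5 : ∑ p ∈ (A ×ˢ A).filter (fun p => p.1 < p.2), K u a (ds p.1 p.2)
        = ∑ d ∈ ((A ×ˢ A).filter (fun p => p.1 < p.2)).image (fun p => p.2 - p.1), K u a d := by
      rw [Finset.sum_image hinj]
      refine Finset.sum_congr rfl fun p hp => ?_
      rw [Finset.mem_filter] at hp
      congr 1
      unfold ds; omega
    rw [h5]
    refine Finset.sum_le_sum_of_subset_of_nonneg ?_ fun d _ _ => K_nonneg ha d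
    intro d hd
    rw [Finset.mem_image] at hd
    obtain ⟨p, hp, rfl⟩ := hd
    rw [Finset.mem_filter, Finset.mem_product] at hp
    have h6 := Finset.mem_Icc.mp (hA hp.1.1)
    have h7 := Finset.mem_Icc.mp (hA hp.1.2)
    rw [Finset.mem_Ico]
    omega
  have h5 : ∑ p ∈ (A ×ˢ A).filter (fun p => p.2 < p.1), K u a (ds p.1 p.2)
      = ∑ p ∈ (A ×ˢ A).filter (fun p => p.1 < p.2), K u a (ds p.1 p.2) := by
    refine Finset.sum_nbij' Prod.swap Prod.swap ?_ ?_ ?_ ?_ ?_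
    · intro p hp; simp only [Finset.mem_filter, Finset.mem_product, Prod.fst_swap, Prod.snd_swap] at hp ⊢; tauto
    · intro p hp; simp only [Finset.mem_filter, Finset.mem_product, Prod.fst_swap, Prod.snd_swap] at hp ⊢; tauto
    · intro p _; simp
    · intro p _; simp
    · intro p _
      simp only [Prod.fst_swap, Prod.snd_swap]
      rw [ds_comm]
  rw [h1, h2, h3, h5]
  linarith

/-- **main inequality** -/
theorem main_ineq {u : ℕ} {a : ℕ → ℝ} (ha : ∀ i, 0 ≤ a i) (h0 : ∀ i, u ≤ i → a i = 0) {n : ℕ} (hun : u ≤ n)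
    {A : Finset ℕ} (hA : A ⊆ Icc 1 n) (hS : Sidon A) (α : ℝ) :
    (A.card : ℝ) * (2 * α * W u a ^ 2 - K u a 0)
      ≤ W u a ^ 2 * (1 + α ^ 2 * n) - K u a 0 - 2 * α ^ 2 * M u a + 2 * α * Pr u a n A := by
  classical
  have hq := quad_nonneg h0 n (fun x => (if x ∈ A then (1 : ℝ) else 0) - α)
  have h1 : ∑ x ∈ Icc 1 n, ∑ x' ∈ Icc 1 n,
      ((if x ∈ A then (1 : ℝ) else 0) - α) * ((if x' ∈ A then (1 : ℝ) else 0) - α) * K u a (ds x x')
      = ∑ x ∈ A, ∑ x' ∈ A, K u a (ds x x') - 2 * α * ∑ x ∈ A, ∑ x' ∈ Icc 1 n, K u a (ds x x')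
        + α ^ 2 * ∑ x ∈ Icc 1 n, ∑ x' ∈ Icc 1 n, K u a (ds x x') := by
    have e1 : ∀ g : ℕ → ℝ, ∑ x ∈ Icc 1 n, (if x ∈ A then (1 : ℝ) else 0) * g x = ∑ x ∈ A, g x := by
      intro g
      simp_rw [ite_mul, one_mul, zero_mul]
      rw [← Finset.sum_filter]
      refine Finset.sum_congr ?_ fun _ _ => rfl
      rw [Finset.filter_mem_eq_inter, Finset.inter_eq_right.mpr hA]
    have e2 : ∀ x ∈ Icc 1 n, ∑ x' ∈ Icc 1 n,
        ((if x ∈ A then (1 : ℝ) else 0) - α) * ((if x' ∈ A then (1 : ℝ) else 0) - α) * K u a (ds x x')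
        = (if x ∈ A then (1 : ℝ) else 0) * (∑ x' ∈ A, K u a (ds x x') - α * ∑ x' ∈ Icc 1 n, K u a (ds x x'))
          - α * (∑ x' ∈ Icc 1 n, (if x' ∈ A then (1 : ℝ) else 0) * K u a (ds x x'))
          + α ^ 2 * ∑ x' ∈ Icc 1 n, K u a (ds x x') := by
      intro x _
      rw [← e1 (fun x' => K u a (ds x x')), Finset.mul_sum, Finset.mul_sum, ← Finset.sum_sub_distrib, Finset.mul_sum,
        Finset.mul_sum, ← Finset.sum_sub_distrib, ← Finset.sum_add_distrib]
      refine Finset.sum_congr rfl fun x' _ => ?_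
      ring
    rw [Finset.sum_congr rfl e2, Finset.sum_add_distrib, Finset.sum_sub_distrib, e1, ← Finset.mul_sum, ← Finset.mul_sum,
      Finset.sum_sub_distrib, ← Finset.mul_sum]
    have e3 : ∑ x ∈ Icc 1 n, ∑ x' ∈ Icc 1 n, (if x' ∈ A then (1 : ℝ) else 0) * K u a (ds x x')
        = ∑ x ∈ A, ∑ x' ∈ Icc 1 n, K u a (ds x x') := by
      rw [Finset.sum_comm]
      rw [← e1 (fun x => ∑ x' ∈ Icc 1 n, K u a (ds x x'))]
      refine Finset.sum_congr rfl fun x' _ => ?_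
      rw [Finset.mul_sum]
      refine Finset.sum_congr rfl fun x _ => ?_
      rw [ds_comm]
    rw [e3]
    ring
  have h2 := pair_sum ha h0 hA hS
  have h3 := sum_rows (a := a) h0 hA
  have h4 := sum_rows (a := a) h0 (le_refl (Icc 1 n))
  rw [Pr_full h0 hun, Nat.card_Icc] at h4
  simp only [Nat.add_sub_cancel] at h4
  rw [h1, h3, h4] at hq
  nlinarith [hq, h2]

end Pool.Agent.H24.SidE
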