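import Pool.Agent.H24.SidE.Ineq

/-!
The sine weight: `a j = sin (π j / u)` for `j < u`.
-/

namespace Pool.Agent.H24.SidE

open Finset Real

/-- the sine weight -/
noncomputable def sw (u j : ℕ) : ℝ := if j < u then Real.sin (2 * (π / (2 * u)) * j) else 0

lemma sw_big {u : ℕ} (j : ℕ) (h : u ≤ j) : sw u j = 0 := by unfold sw; rw [if_neg (by omega)]

lemma sw_nonneg {u : ℕ} (j : ℕ) : 0 ≤ sw u j := by
  unfold sw
  split_ifs with h
  · have hu : (0 : ℝ) < u := by
      have : 0 < u := by omega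
      exact_mod_cast this
    have hj : (j : ℝ) ≤ u := by exact_mod_cast h.le
    apply Real.sin_nonneg_of_nonneg_of_le_pi
    · positivity
    · have : 2 * (π / (2 * u)) * j = π * (j / u) := by field_simp
      rw [this]
      have h1 : (j : ℝ) / u ≤ 1 := by rw [div_le_one hu]; exact hj
      nlinarith [Real.pi_pos]
  · exact le_rfl

lemma sin_sum (x : ℝ) (t : ℕ) :
    2 * Real.sin x * ∑ i ∈ range t, Real.sin (2 * x * i) = Real.cos x - Real.cos ((2 * t - 1) * x) := by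
  induction t with
  | zero => simp
  | succ t ih =>
    rw [Finset.sum_range_succ, mul_add, ih]
    have h1 : (2 * ((t + 1 : ℕ) : ℝ) - 1) * x = 2 * x * t + x := by push_cast; ring
    have h2 : (2 * (t : ℝ) - 1) * x = 2 * x * t - x := by ring
    rw [h1, h2, Real.cos_add, Real.cos_sub]
    ring

lemma sum_sw {u : ℕ} {t : ℕ} (ht : t ≤ u) :
    ∑ i ∈ range t, sw u i = ∑ i ∈ range t, Real.sin (2 * (π / (2 * u)) * i) := by
  refine Finset.sum_congr rfl fun i hi => ?_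
  rw [Finset.mem_range] at hi
  unfold sw
  rw [if_pos (by omega)]

lemma partial_sw {u : ℕ} {t : ℕ} (ht : t ≤ u) :
    2 * Real.sin (π / (2 * u)) * ∑ i ∈ range t, sw u i
      = Real.cos (π / (2 * u)) - Real.cos ((2 * t - 1) * (π / (2 * u))) := by
  rw [sum_sw ht, sin_sum]

lemma total_sw {u : ℕ} (hu : 2 ≤ u) :
    Real.sin (π / (2 * u)) * W u (sw u) = Real.cos (π / (2 * u)) := by
  have h1 := partial_sw (u := u) le_rfl
  have hu0 : (0 : ℝ) < u := by exact_mod_cast (by omega : 0 < u)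
  have h2 : (2 * (u : ℝ) - 1) * (π / (2 * u)) = π - π / (2 * u) := by field_simp
  rw [h2, Real.cos_pi_sub] at h1
  unfold W
  linarith

lemma cos_sum_zero (x : ℝ) (b : ℝ) (t : ℕ) :
    2 * Real.sin (2 * x) * ∑ i ∈ range t, Real.cos (4 * x * i + b)
      = Real.sin (4 * x * t - 2 * x + b) - Real.sin (-(2 * x) + b) := by
  induction t with
  | zero => simp
  | succ t ih =>
    rw [Finset.sum_range_succ, mul_add, ih]
    have h1 : 4 * x * ((t + 1 : ℕ) : ℝ) - 2 * x + b = (4 * x * t + b) + 2 * x := by push_cast; ring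
    have h2 : 4 * x * (t : ℝ) - 2 * x + b = (4 * x * t + b) - 2 * x := by ring
    have e1 := Real.sin_add (4 * x * t + b) (2 * x)
    have e2 := Real.sin_sub (4 * x * t + b) (2 * x)
    rw [h1, h2, e1, e2]
    ring

lemma sin2x_pos {u : ℕ} (hu : 2 ≤ u) : 0 < Real.sin (2 * (π / (2 * u))) := by
  have hu0 : (2 : ℝ) ≤ u := by exact_mod_cast hu
  have h1 : 2 * (π / (2 * (u : ℝ))) = π / u := by field_simp
  rw [h1]
  apply Real.sin_pos_of_pos_of_lt_pi
  · have := Real.pi_pos; positivity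
  · rw [div_lt_iff₀ (by linarith)]
    nlinarith [Real.pi_pos]

lemma cos_sum_full {u : ℕ} (hu : 2 ≤ u) (b : ℝ) :
    ∑ i ∈ range u, Real.cos (4 * (π / (2 * u)) * i + b) = 0 := by
  have h1 := cos_sum_zero (π / (2 * u)) b u
  have hu0 : (0 : ℝ) < u := by exact_mod_cast (by omega : 0 < u)
  have h2 : 4 * (π / (2 * (u : ℝ))) * u - 2 * (π / (2 * u)) + b = (-(2 * (π / (2 * u))) + b) + 2 * π := by
    field_simp
    ring
  rw [h2, Real.sin_add_two_pi, sub_self] at h1
  rcases mul_eq_zero.mp h1 with h | h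
  · have := sin2x_pos hu
    exfalso
    rcases mul_eq_zero.mp h with h' | h'
    · norm_num at h'
    · linarith
  · exact h

lemma cos_sum_half {u : ℕ} (hu : 2 ≤ u) (b : ℝ) :
    ∑ i ∈ range u, Real.cos (4 * (π / (2 * u)) * i + b) / 2 = 0 := by
  rw [← Finset.sum_div, cos_sum_full hu, zero_div]

lemma K_zero_sw {u : ℕ} (hu : 2 ≤ u) : K u (sw u) 0 = u / 2 := by
  rw [K_zero]
  have h1 : ∀ i ∈ range u, sw u i ^ 2 = 1 / 2 - Real.cos (4 * (π / (2 * u)) * i + 0) / 2 := by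
    intro i hi
    rw [Finset.mem_range] at hi
    unfold sw
    rw [if_pos hi, Real.sin_sq_eq_half_sub]
    congr 3
    ring
  rw [Finset.sum_congr rfl h1, Finset.sum_sub_distrib, cos_sum_half hu]
  simp
  ring

lemma M_sw {u : ℕ} (hu : 2 ≤ u) :
    4 * Real.sin (π / (2 * u)) ^ 2 * M u (sw u) = u * Real.cos (π / (2 * u)) ^ 2 - u / 2 := by
  unfold M
  have hW := total_sw hu
  unfold W at hW
  have h1 : ∀ t ∈ range u, 4 * Real.sin (π / (2 * u)) ^ 2 * ((∑ i ∈ range (t + 1), sw u i) *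
      (∑ i ∈ range u, sw u i - ∑ i ∈ range (t + 1), sw u i))
      = Real.cos (π / (2 * u)) ^ 2 - (1 / 2 + Real.cos (4 * (π / (2 * u)) * t + 2 * (π / (2 * u))) / 2) := by
    intro t ht
    rw [Finset.mem_range] at ht
    have h2 := partial_sw (u := u) (t := t + 1) (by omega)
    have h3 : (2 * ((t + 1 : ℕ) : ℝ) - 1) * (π / (2 * u)) = (2 * t + 1) * (π / (2 * u)) := by push_cast; ring
    rw [h3] at h2
    have h4 : Real.cos (4 * (π / (2 * u)) * t + 2 * (π / (2 * u))) = 2 * Real.cos ((2 * t + 1) * (π / (2 * u))) ^ 2 - 1 := by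
      rw [← Real.cos_two_mul]
      congr 1
      ring
    rw [h4]
    set s := Real.sin (π / (2 * u))
    set c := Real.cos (π / (2 * u))
    set X := ∑ i ∈ range (t + 1), sw u i
    set Y := ∑ i ∈ range u, sw u i
    set ct := Real.cos ((2 * t + 1) * (π / (2 * u)))
    have h5 : 4 * s ^ 2 * (X * (Y - X)) = (2 * s * X) * (2 * (s * Y) - 2 * s * X) := by ring
    rw [h5, h2, hW]
    ring
  rw [Finset.mul_sum, Finset.sum_congr rfl h1, Finset.sum_sub_distrib, Finset.sum_add_distrib, cos_sum_half hu]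
  simp
  ring

lemma sinx_pos {u : ℕ} (hu : 2 ≤ u) : 0 < Real.sin (π / (2 * u)) := by
  have hu0 : (2 : ℝ) ≤ u := by exact_mod_cast hu
  apply Real.sin_pos_of_pos_of_lt_pi
  · have := Real.pi_pos; positivity
  · rw [div_lt_iff₀ (by linarith)]
    nlinarith [Real.pi_pos]

lemma M_sw_le {u : ℕ} (hu : 2 ≤ u) : M u (sw u) ≤ u / 8 * W u (sw u) ^ 2 := by
  have h1 := M_sw hu
  have h2 := total_sw hu
  have h3 := sinx_pos hu
  have h4 : Real.cos (π / (2 * u)) ^ 2 ≤ 1 := Real.cos_sq_le_one _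
  have hu0 : (0 : ℝ) < u := by exact_mod_cast (by omega : 0 < u)
  set s := Real.sin (π / (2 * u))
  set c := Real.cos (π / (2 * u))
  have h5 : s ^ 2 * W u (sw u) ^ 2 = c ^ 2 := by rw [← mul_pow, h2]
  have h6 : 8 * s ^ 2 * M u (sw u) ≤ 8 * s ^ 2 * (u / 8 * W u (sw u) ^ 2) := by
    have : 8 * s ^ 2 * (u / 8 * W u (sw u) ^ 2) = u * c ^ 2 := by rw [← h5]; ring
    rw [this]
    nlinarith
  exact le_of_mul_le_mul_left h6 (by positivity)

lemma M_nonneg {u : ℕ} {a : ℕ → ℝ} (ha : ∀ i, 0 ≤ a i) : 0 ≤ M u a := by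
  unfold M
  refine Finset.sum_nonneg fun t ht => mul_nonneg (Finset.sum_nonneg fun i _ => ha i) ?_
  rw [Finset.mem_range] at ht
  rw [sub_nonneg]
  exact Finset.sum_le_sum_of_subset_of_nonneg (Finset.range_mono (by omega)) fun i _ _ => ha i

/-- lower bound for the total weight -/
lemma W_sw_ge {u : ℕ} (hu : 2 ≤ u) : (1 - (π / (2 * u)) ^ 2) ≤ (π / (2 * u)) ^ 2 * W u (sw u) ^ 2 := by
  have h2 := total_sw hu
  have h3 := sinx_pos hu
  have hu0 : (2 : ℝ) ≤ u := by exact_mod_cast hu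
  have hx : 0 < π / (2 * (u : ℝ)) := by have := Real.pi_pos; positivity
  have h4 : Real.sin (π / (2 * u)) ≤ π / (2 * u) := Real.sin_le hx.le
  have h5 : 1 - (π / (2 * (u : ℝ))) ^ 2 / 2 ≤ Real.cos (π / (2 * u)) := Real.one_sub_sq_div_two_le_cos
  set x := π / (2 * (u : ℝ))
  have hx2 : x < 1 := by
    have : x ≤ π / 4 := by
      apply div_le_div_of_nonneg_left Real.pi_pos.le (by norm_num) (by linarith)
    linarith [Real.pi_lt_d2]
  have hW : 0 ≤ W u (sw u) := Finset.sum_nonneg fun i _ => sw_nonneg i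
  have h6 : 1 - x ^ 2 / 2 ≤ x * W u (sw u) := by
    calc 1 - x ^ 2 / 2 ≤ Real.cos x := h5
      _ = Real.sin x * W u (sw u) := h2.symm
      _ ≤ x * W u (sw u) := mul_le_mul_of_nonneg_right h4 hW
  have h7 : 0 ≤ 1 - x ^ 2 / 2 := by nlinarith
  have h8 : (1 - x ^ 2 / 2) ^ 2 ≤ (x * W u (sw u)) ^ 2 := pow_le_pow_left₀ h7 h6 2
  nlinarith [sq_nonneg (x ^ 2)]

end Pool.Agent.H24.SidE
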